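import Pool.Agent.L7h31.CP.Stm

/-!
# Part PL of project CP
-/

set_option autoImplicit false
set_option linter.all false

namespace Pool.Agent.L7h61.CP

open scoped BigOperators
open Pool.Agent.L7h31.CE (HS IsPolytope IsFace E mk hor ver S_DST)
open Pool.Agent.L7h31.CP

theorem s_PL (h : S_DST) : S_PL := by
  intro r u η γ hne
  obtain ⟨h1, -, h3, -⟩ := h r
  have hS : 0 ≤ ∑ a, u a ^ 2 := Finset.sum_nonneg fun a _ => sq_nonneg _
  set N := ∑ a, u a ^ 2 + η ^ 2 with hNd
  have hN : 0 < N := by
    rcases hne with hη | ⟨a, ha⟩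
    · have : 0 < η ^ 2 := by positivity
      linarith
    · have h4 : 0 < u a ^ 2 := by positivity
      have h5 : u a ^ 2 ≤ ∑ a, u a ^ 2 :=
        Finset.single_le_sum (f := fun a => u a ^ 2) (fun b _ => sq_nonneg _) (Finset.mem_univ a)
      have := sq_nonneg η
      linarith
  set l := -γ / N - 1 / 2 with hl
  have hlN : (2 * l + 1) * N = -2 * γ := by
    rw [hl]
    field_simp
    ring
  refine ⟨mk (fun a => l * u a) (l * η), mk (fun a => (l + 1) * u a) ((l + 1) * η), ?_, ?_⟩
  · intro heq
    rcases hne with hη | ⟨a, ha⟩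
    · have h4 : ver (mk (fun a => l * u a) (l * η)) =
        ver (mk (fun a => (l + 1) * u a) ((l + 1) * η)) := by rw [heq]
      rw [(h1 _ _).2, (h1 _ _).2] at h4
      apply hη
      linarith
    · have h4 : hor (mk (fun a => l * u a) (l * η)) a =
        hor (mk (fun a => (l + 1) * u a) ((l + 1) * η)) a := by rw [heq]
      rw [(h1 _ _).1, (h1 _ _).1] at h4
      apply ha
      linarith
  · intro z
    set p := mk (fun a => l * u a) (l * η) with hp
    set q := mk (fun a => (l + 1) * u a) ((l + 1) * η) with hq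
    have key : dist z q ^ 2 = dist z p ^ 2 - 2 * ((∑ a, u a * hor z a) + η * ver z + γ) := by
      rw [h3, h3]
      have e1 : ∑ a, (hor z a - hor q a) ^ 2 = ∑ a, (hor z a - hor p a) ^ 2 -
          2 * ∑ a, u a * hor z a + (2 * l + 1) * ∑ a, u a ^ 2 := by
        rw [Finset.mul_sum, Finset.mul_sum, ← Finset.sum_sub_distrib, ← Finset.sum_add_distrib]
        refine Finset.sum_congr rfl fun a _ => ?_
        rw [hp, hq, (h1 _ _).1, (h1 _ _).1]
        ring
      have e2 : ver p = l * η := by rw [hp, (h1 _ _).2]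
      have e3 : ver q = (l + 1) * η := by rw [hq, (h1 _ _).2]
      rw [e1, e2, e3]
      have e4 : (2 * l + 1) * (∑ a, u a ^ 2) + (2 * l + 1) * η ^ 2 = -2 * γ := by
        rw [← hlN, hNd]; ring
      linear_combination e4
    have h5 : (0 : ℝ) ≤ dist z p := dist_nonneg
    have h6 : (0 : ℝ) ≤ dist z q := dist_nonneg
    constructor
    · rw [← sq_le_sq₀ h5 h6, key]
      constructor <;> intro h7 <;> linarith
    · rw [← sq_eq_sq₀ h5 h6, key]
      constructor <;> intro h7 <;> linarith

end Pool.Agent.L7h61.CP
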