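import Pool.Agent.L7h31.CP.Stm

/-!
# Parts SG, WST of project CP
-/

set_option autoImplicit false
set_option linter.all false

namespace Pool.Agent.L7h61.CP

open Pool.Agent.L7h31.CP

lemma epsz_or (P : ℤ) : epsz P = 1 ∨ epsz P = -1 := by
  unfold epsz
  split_ifs
  · exact Or.inr rfl
  · exact Or.inl rfl

lemma mod_iff {r e δ : ℤ} (hδ : δ = 1 ∨ δ = -1) (x y : ℤ) :
    (δ * x + e) % r = (δ * y + e) % r ↔ x % r = y % r := by
  have h1 : ∀ a b : ℤ, a % r = b % r ↔ r ∣ b - a := fun a b => by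
    rw [← Int.modEq_iff_dvd]
    rfl
  rw [h1, h1]
  rcases hδ with rfl | rfl
  · have : 1 * y + e - (1 * x + e) = y - x := by ring
    rw [this]
  · have : -1 * y + e - (-1 * x + e) = -(y - x) := by ring
    rw [this, dvd_neg]

theorem s_SG : S_SG := by
  intro r K hr δ e P0 hδ
  have hr0 : 0 < r := by omega
  have hrz : (0 : ℤ) < (r : ℤ) := by exact_mod_cast hr0
  have hmod : ∀ a : Fin r, (((a : ℕ) : ℤ)) % (r : ℤ) = ((a : ℕ) : ℤ) := fun a =>
    Int.emod_eq_of_lt (by positivity) (by exact_mod_cast a.2)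
  have hnn : ∀ x : ℤ, 0 ≤ x % (r : ℤ) := fun x => Int.emod_nonneg _ hrz.ne'
  have hlt : ∀ x : ℤ, x % (r : ℤ) < r := fun x => Int.emod_lt_of_pos _ hrz
  let f : Fin r → Fin r := fun a => ⟨((δ * ((a : ℕ) : ℤ) + e) % (r : ℤ)).toNat, by
    have := hlt (δ * ((a : ℕ) : ℤ) + e)
    have := hnn (δ * ((a : ℕ) : ℤ) + e)
    omega⟩
  have hf : ∀ a, (((f a : Fin r) : ℕ) : ℤ) = (δ * ((a : ℕ) : ℤ) + e) % (r : ℤ) := fun a =>
    Int.toNat_of_nonneg (hnn _)
  have hinj : Function.Injective f := by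
    intro a b hab
    have h1 : (((f a : Fin r) : ℕ) : ℤ) = (((f b : Fin r) : ℕ) : ℤ) := by rw [hab]
    rw [hf, hf, mod_iff hδ, hmod, hmod] at h1
    exact Fin.ext (by exact_mod_cast h1)
  have hbij : Function.Bijective f := Finite.injective_iff_bijective.1 hinj
  let Q : Fin r → ℤ := fun a => P0 + (((a : ℕ) : ℤ) - P0) % (r : ℤ)
  refine ⟨Equiv.ofBijective f hbij, fun a => δ * epsz (δ * Q a + e) * epsz (Q a), ?_, ?_⟩
  · intro a
    rcases hδ with h | h <;> rcases epsz_or (δ * Q a + e) with h1 | h1 <;>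
      rcases epsz_or (Q a) with h2 | h2 <;> simp only [h1, h2] <;> rw [h] <;> norm_num
  · intro P hP1 hP2 a
    have hiff : (δ * P + e) % (r : ℤ) = (((f a : Fin r) : ℕ) : ℤ) ↔
        P % (r : ℤ) = ((a : ℕ) : ℤ) := by
      rw [hf, mod_iff hδ, hmod]
    show ww r (δ * P + e) (f a) = δ * (δ * epsz (δ * Q a + e) * epsz (Q a)) * ww r P a
    unfold ww
    by_cases hPa : P % (r : ℤ) = ((a : ℕ) : ℤ)
    · rw [if_pos (hiff.2 hPa), if_pos hPa]
      have hQ : Q a = P := by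
        have h1 : (((a : ℕ) : ℤ) - P0) % (r : ℤ) = (P - P0) % (r : ℤ) := by
          rw [← hPa]
          exact Int.emod_sub_emod _ _ _
        have h2 : (P - P0) % (r : ℤ) = P - P0 := Int.emod_eq_of_lt (by omega) (by omega)
        show P0 + (((a : ℕ) : ℤ) - P0) % (r : ℤ) = P
        rw [h1, h2]
        ring
      rw [hQ]
      have hδ2 : δ * δ = 1 := by rcases hδ with h | h <;> rw [h] <;> norm_num
      have he2 : epsz P * epsz P = 1 := by
        rcases epsz_or P with h | h <;> rw [h] <;> norm_num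
      calc epsz (δ * P + e) = (δ * δ) * epsz (δ * P + e) * (epsz P * epsz P) := by
            rw [hδ2, he2]; ring
        _ = _ := by ring
    · rw [if_neg (fun h => hPa (hiff.1 h)), if_neg hPa, mul_zero]

theorem s_WST (h : S_SG) : S_WST := by
  intro r K hr i j
  rcases Int.even_or_odd (j - i) with ⟨e, he⟩ | ⟨e, he⟩
  · obtain ⟨σ, s, h1, h2⟩ := h r K hr 1 e ((i - K) / 2) (Or.inl rfl)
    refine ⟨σ, s, 1, h1, Or.inl rfl, fun t ht a => ?_⟩
    obtain ⟨ht1, ht2⟩ := abs_le.1 ht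
    have h3 := h2 ((i + t) / 2) (by omega) (by omega) a
    have h4 : (j + 1 * t) / 2 = 1 * ((i + t) / 2) + e := by omega
    unfold vz
    rw [h4]
    exact h3
  · obtain ⟨σ, s, h1, h2⟩ := h r K hr (-1) (e + i) ((i - K) / 2) (Or.inr rfl)
    refine ⟨σ, s, -1, h1, Or.inr rfl, fun t ht a => ?_⟩
    obtain ⟨ht1, ht2⟩ := abs_le.1 ht
    have h3 := h2 ((i + t) / 2) (by omega) (by omega) a
    have h4 : (j + -1 * t) / 2 = -1 * ((i + t) / 2) + (e + i) := by omega
    unfold vz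
    rw [h4]
    exact h3

end Pool.Agent.L7h61.CP
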